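import Pool.Agent.H1.CG.Defs

/-!
# [CCC GLOBAL Bas] (3.3) and (4.2)

`absorb`: let `c w < w`. Otherwise `v` is in none of the `c^-i w`, `i : ℕ`; these are different half-spaces (increasing) which contain
a point `u` of `w` and not `v`. `absorb'`: the same for `c⁻¹` and the complement of `w`.
`no_nest` (3.3): `H w < w`, `w' ≤ H w'`. If `w ≤ w'` take `v` not in `w'`: `v` is not in `H^-i w' ≤ w'` but in `H^-i w` for large `i`. If
`w' ≤ w` take `v` in `w'`: `v` is in `H^i w' ≥ w'`, not in `H^i w` for large `i`.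
`tri` (4.2): `c`, `y` commute, `c w < w`: two of `w, y w, .., y^n w` are equal or do not cross, so `w` and `y^p w` are equal or do not cross,
`1 ≤ p ≤ n`. If `w` is disjoint from `y^p w` then `c^-i w` is disjoint from `y^p c^-i w`, but every vertex is in both for large `i`. The same for
the complements. So they are nested, and `p` divides `n!`.
-/

set_option autoImplicit false

namespace Pool.Agent.H1.CG

open Pool.Agent.H98.FJ Pool.Agent.H37.PT
open scoped Pointwise

variable {G V : Type} [Group G] [MulAction G V] {Hs : Set (Set V)} {n : ℕ}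

theorem cg_pow_sub {c : G} {w : Set V} (h : c • w ⊂ w) (i : ℕ) : c ^ i • w ⊆ w := by
  induction i with
  | zero => rw [pow_zero, one_smul]
  | succ i ih =>
    rw [pow_succ', mul_smul]
    exact (Set.smul_set_mono ih).trans h.1

theorem cg_pow_ssub {c : G} {w : Set V} (h : c • w ⊂ w) {i : ℕ} (hi : 0 < i) : c ^ i • w ⊂ w := by
  obtain ⟨j, rfl⟩ : ∃ j, i = j + 1 := ⟨i - 1, by omega⟩
  rw [pow_succ', mul_smul]
  exact lt_of_le_of_lt (Set.smul_set_mono (cg_pow_sub h j)) h

theorem absorb (hS : Sys G Hs n) {c : G} {w : Set V} (hw : w ∈ Hs) (h : c • w ⊂ w) (v : V) :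
    ∃ i0 : ℕ, ∀ i, i0 ≤ i → c ^ i • v ∈ w := by
  by_cases hex : ∃ i0 : ℕ, c ^ i0 • v ∈ w
  · obtain ⟨i0, h0⟩ := hex
    refine ⟨i0, fun i hi => ?_⟩
    obtain ⟨j, rfl⟩ := Nat.exists_eq_add_of_le hi
    have h1 : c ^ (i0 + j) • v ∈ c ^ j • w := by
      rw [add_comm, pow_add, mul_smul]
      exact Set.smul_mem_smul_set h0
    exact cg_pow_sub h j h1
  · exfalso
    push Not at hex
    obtain ⟨u, hu⟩ := hS.ne w hw
    have hinj : Function.Injective (fun i : ℕ => (c⁻¹) ^ i • w) := by
      intro i j hij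
      by_contra hne
      wlog hlt : i < j generalizing i j with H
      · exact H hij.symm (Ne.symm hne) (lt_of_le_of_ne (not_lt.1 hlt) (Ne.symm hne))
      obtain ⟨k, rfl⟩ := Nat.exists_eq_add_of_lt hlt
      have h1 : (c⁻¹) ^ i • w = (c⁻¹) ^ (i + k + 1) • w := hij
      have h2 : c ^ (i + k + 1) • ((c⁻¹) ^ i • w) = w := by
        rw [h1, ← mul_smul, inv_pow, mul_inv_cancel, one_smul]
      have h3 : c ^ (i + k + 1) • ((c⁻¹) ^ i • w) = c ^ (k + 1) • w := by
        rw [← mul_smul, inv_pow]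
        congr 1
        rw [mul_inv_eq_iff_eq_mul, ← pow_add]
        congr 1
        omega
      rw [h3] at h2
      have h4 := cg_pow_ssub h (Nat.succ_pos k)
      rw [Nat.succ_eq_add_one, h2] at h4
      exact (lt_irrefl w) h4
    have hfin := hS.fin u v
    have hsub : Set.range (fun i : ℕ => (c⁻¹) ^ i • w) ⊆ {h ∈ Hs | u ∈ h ∧ v ∉ h} := by
      rintro _ ⟨i, rfl⟩
      refine ⟨hS.smul _ _ hw, ?_, ?_⟩
      · show u ∈ (c⁻¹) ^ i • w
        rw [inv_pow, Set.mem_inv_smul_set_iff]
        exact cg_pow_sub h i (Set.smul_mem_smul_set hu)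
      · show v ∉ (c⁻¹) ^ i • w
        rw [inv_pow, Set.mem_inv_smul_set_iff]
        exact hex i
    exact Set.infinite_range_of_injective hinj (hfin.subset hsub)

theorem cg_ssub_compl {c : G} {w : Set V} (h : c • w ⊂ w) : c⁻¹ • wᶜ ⊂ wᶜ := by
  have h1 : c⁻¹ • (c • w) ⊂ c⁻¹ • w := by
    refine ⟨Set.smul_set_mono h.1, fun h2 => h.2 ?_⟩
    have h3 := Set.smul_set_mono (a := c) h2
    rwa [smul_inv_smul, smul_inv_smul] at h3
  rw [inv_smul_smul] at h1
  rw [Set.smul_set_compl]
  exact ⟨Set.compl_subset_compl.2 h1.1, fun h2 => h1.2 (Set.compl_subset_compl.1 h2)⟩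

theorem absorb' (hS : Sys G Hs n) {c : G} {w : Set V} (hw : w ∈ Hs) (h : c • w ⊂ w) (v : V) :
    ∃ i0 : ℕ, ∀ i, i0 ≤ i → c⁻¹ ^ i • v ∉ w := by
  obtain ⟨i0, h0⟩ := absorb hS (hS.compl w hw) (cg_ssub_compl h) v
  exact ⟨i0, fun i hi => h0 i hi⟩

theorem no_nest (hS : Sys G Hs n) {c : G} {w w' : Set V} (hw : w ∈ Hs) (hw' : w' ∈ Hs) (h : c • w ⊂ w) (h' : w' ⊆ c • w') :
    ¬ w ⊆ w' ∧ ¬ w' ⊆ w := by
  have hp : ∀ i : ℕ, w' ⊆ c ^ i • w' := by
    intro i
    induction i with
    | zero => rw [pow_zero, one_smul]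
    | succ i ih =>
      rw [pow_succ', mul_smul]
      exact h'.trans (Set.smul_set_mono ih)
  constructor
  · intro h1
    obtain ⟨v, hv⟩ := hS.ne _ (hS.compl w' hw')
    obtain ⟨i0, h0⟩ := absorb hS hw h v
    have h2 := h1 (h0 i0 le_rfl)
    have h3 := hp i0 h2
    rw [Set.smul_mem_smul_set_iff] at h3
    exact hv h3
  · intro h1
    obtain ⟨v, hv⟩ := hS.ne _ hw'
    obtain ⟨i0, h0⟩ := absorb' hS hw h v
    have h2 := hp i0 hv
    rw [Set.mem_smul_set_iff_inv_smul_mem] at h2
    have h3 := h0 i0 le_rfl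
    rw [inv_pow] at h3
    exact h3 (h1 h2)

theorem tri (hS : Sys G Hs n) {c y : G} (hcy : Commute c y) {w : Set V} (hw : w ∈ Hs) (h : c • w ⊂ w) :
    y ^ n.factorial • w = w ∨ y ^ n.factorial • w ⊂ w ∨ w ⊂ y ^ n.factorial • w := by
  classical
  -- it is enough to find `1 ≤ p ≤ n` with `w`, `y ^ p w` nested
  have hred : (∃ p, 0 < p ∧ p ≤ n ∧ (w ⊆ y ^ p • w ∨ y ^ p • w ⊆ w)) → y ^ n.factorial • w = w ∨
      y ^ n.factorial • w ⊂ w ∨ w ⊂ y ^ n.factorial • w := by
    rintro ⟨p, hp0, hpn, hp⟩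
    obtain ⟨k, hk⟩ := Nat.dvd_factorial hp0 hpn
    have hpk : y ^ n.factorial = (y ^ p) ^ k := by rw [hk, pow_mul]
    rcases hp with hp | hp
    · have h1 : ∀ k : ℕ, w ⊆ (y ^ p) ^ k • w := by
        intro k
        induction k with
        | zero => rw [pow_zero, one_smul]
        | succ k ih =>
          rw [pow_succ', mul_smul]
          exact hp.trans (Set.smul_set_mono ih)
      rw [hpk]
      rcases (h1 k).eq_or_ssubset with h2 | h2
      · exact Or.inl h2.symm
      · exact Or.inr (Or.inr h2)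
    · have h1 : ∀ k : ℕ, (y ^ p) ^ k • w ⊆ w := by
        intro k
        induction k with
        | zero => rw [pow_zero, one_smul]
        | succ k ih =>
          rw [pow_succ', mul_smul]
          exact (Set.smul_set_mono ih).trans hp
      rw [hpk]
      rcases (h1 k).eq_or_ssubset with h2 | h2
      · exact Or.inl h2
      · exact Or.inr (Or.inl h2)
  apply hred
  -- two of the `y ^ i w` do not cross
  obtain ⟨p, hp0, hpn, hp⟩ : ∃ p, 0 < p ∧ p ≤ n ∧ ¬ Cr w (y ^ p • w) := by
    by_contra hcon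
    push Not at hcon
    have hcr : ∀ i j : ℕ, i < j → j ≤ n → Cr (y ^ i • w) (y ^ j • w) := by
      intro i j hij hjn
      have h1 := hcon (j - i) (by omega) (by omega)
      have h2 : y ^ j • w = y ^ i • (y ^ (j - i) • w) := by
        rw [← mul_smul, ← pow_add]
        congr 2
        omega
      have h3 : ∀ (g : G) (h k : Set V), Cr h k → Cr (g • h) (g • k) := by
        intro g h k hc
        unfold Cr at hc ⊢
        rw [← Set.smul_set_compl, ← Set.smul_set_compl]
        simp only [Set.smul_set_subset_smul_set_iff]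
        exact hc
      rw [h2]
      exact h3 _ _ _ h1
    have hsym : ∀ h k : Set V, Cr h k → Cr k h := by
      rintro h k ⟨h1, h2, h3, h4⟩
      refine ⟨h2, h1, fun h5 => h3 ?_, fun h5 => h4 ?_⟩
      · exact Set.subset_compl_comm.1 h5
      · exact Set.compl_subset_comm.1 h5
    have hne : ∀ h : Set V, ¬ Cr h h := fun h hc => hc.1 (le_refl h)
    have hinj : Set.InjOn (fun i : ℕ => y ^ i • w) (Finset.range (n + 1) : Set ℕ) := by
      intro i hi j hj hij
      rw [Finset.coe_range, Set.mem_Iio] at hi hj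
      by_contra hne'
      rcases lt_or_gt_of_ne hne' with h1 | h1
      · have h2 := hcr i j h1 (by omega)
        have h3 : y ^ i • w = y ^ j • w := hij
        rw [h3] at h2
        exact hne _ h2
      · have h2 := hcr j i h1 (by omega)
        have h3 : y ^ i • w = y ^ j • w := hij
        rw [h3] at h2
        exact hne _ h2
    have hd := hS.dim ((Finset.range (n + 1)).image (fun i : ℕ => y ^ i • w)) ?_ ?_
    · rw [Finset.card_image_of_injOn hinj, Finset.card_range] at hd
      omega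
    · intro k hk
      rw [Finset.coe_image] at hk
      obtain ⟨i, -, rfl⟩ := hk
      exact hS.smul _ _ hw
    · intro a ha b hb hab
      rw [Finset.coe_image] at ha hb
      obtain ⟨i, hi, rfl⟩ := ha
      obtain ⟨j, hj, rfl⟩ := hb
      rw [Finset.coe_range, Set.mem_Iio] at hi hj
      rcases lt_trichotomy i j with h1 | h1 | h1
      · exact hcr i j h1 (by omega)
      · exact absurd (by rw [h1]) hab
      · exact hsym _ _ (hcr j i h1 (by omega))
  refine ⟨p, hp0, hpn, ?_⟩
  unfold Cr at hp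
  by_contra hnest
  rw [not_or] at hnest
  obtain ⟨u, hu⟩ := hS.ne w hw
  have hcom : ∀ i : ℕ, Commute (c ^ i) (y ^ p) := fun i => (hcy.pow_left i).pow_right p
  have h34 : w ⊆ (y ^ p • w)ᶜ ∨ wᶜ ⊆ y ^ p • w := by
    by_contra hc
    rw [not_or] at hc
    exact hp ⟨hnest.1, hnest.2, hc.1, hc.2⟩
  rcases h34 with h3 | h3
  · -- disjoint
    obtain ⟨i0, h0⟩ := absorb hS hw h u
    obtain ⟨i1, h1⟩ := absorb hS hw h ((y ^ p)⁻¹ • u)
    have e0 := h0 (max i0 i1) (le_max_left _ _)
    have e1 := h1 (max i0 i1) (le_max_right _ _)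
    refine h3 e0 ?_
    rw [Set.mem_smul_set_iff_inv_smul_mem, ← mul_smul, ← ((hcom (max i0 i1)).inv_right).eq, mul_smul]
    exact e1
  · -- the union is everything
    obtain ⟨i0, h0⟩ := absorb' hS hw h u
    obtain ⟨i1, h1⟩ := absorb' hS hw h ((y ^ p)⁻¹ • u)
    have e0 := h0 (max i0 i1) (le_max_left _ _)
    have e1 := h1 (max i0 i1) (le_max_right _ _)
    have e2 := h3 e0
    rw [Set.mem_smul_set_iff_inv_smul_mem, ← mul_smul] at e2
    rw [inv_pow, ← mul_smul, ((hcom (max i0 i1)).inv_left.inv_right).eq] at e1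
    rw [inv_pow] at e2
    exact e1 e2

end Pool.Agent.H1.CG
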