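import Pool.Agent.H37.PT.Rk

/-!
# [CCC GLOBAL] Half-spaces: definitions

`Cr h k`: the half-spaces `h`, `k` cross. `Sys G Hs n`: a `G`-invariant system of half-spaces in the set `V`, closed under
complements, finitely many separate two points, all proper, at most `n` are pairwise crossing. `Bd G Hs N`: the subgroups with
a bounded orbit have at most `N` elements. `Sk g w`: a positive power of `g` maps `w` into a proper subset of `w`.
`Sg A w`: the elements with a power in `A` which skewer `w`. `Wc Hs A w`: the half-spaces with the same `Sg` as `w`.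
`nu W x y`: the signed number of elements of `W` between `x` and `y`.
-/

set_option autoImplicit false

namespace Pool.Agent.H1.CG

open Pool.Agent.H98.FJ Pool.Agent.H37.PT
open scoped Pointwise

/-- crossing half-spaces -/
def Cr {V : Type} (h k : Set V) : Prop := ¬ h ⊆ k ∧ ¬ k ⊆ h ∧ ¬ h ⊆ kᶜ ∧ ¬ hᶜ ⊆ k

/-- a system of half-spaces of dimension at most `n` -/
structure Sys (G : Type) [Group G] {V : Type} [MulAction G V] (Hs : Set (Set V)) (n : ℕ) : Prop where
  compl : ∀ h ∈ Hs, hᶜ ∈ Hs
  smul : ∀ (g : G), ∀ h ∈ Hs, g • h ∈ Hs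
  fin : ∀ x y, {h ∈ Hs | x ∈ h ∧ y ∉ h}.Finite
  ne : ∀ h ∈ Hs, h.Nonempty
  dim : ∀ F : Finset (Set V), (F : Set (Set V)) ⊆ Hs → (F : Set (Set V)).Pairwise Cr → F.card ≤ n

/-- the subgroups with a bounded orbit have at most `N` elements -/
def Bd (G : Type) [Group G] {V : Type} [MulAction G V] (Hs : Set (Set V)) (N : ℕ) : Prop :=
  ∀ B : Subgroup G, ∀ x : V, (∃ D : ℕ, ∀ b ∈ B, {h ∈ Hs | x ∈ h ∧ b • x ∉ h}.ncard ≤ D) → (B : Set G).encard ≤ N

/-- a positive power of `g` maps `w` into a proper subset of `w` -/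
def Sk {G V : Type} [Group G] [MulAction G V] (g : G) (w : Set V) : Prop := ∃ m : ℕ, 0 < m ∧ g ^ m • w ⊂ w

/-- the elements of the root set of `A` which skewer `w` -/
def Sg {G V : Type} [Group G] [MulAction G V] (A : Subgroup G) (w : Set V) : Set G := {x | x ∈ Rt A ∧ Sk x w}

/-- the half-spaces with the same `Sg` as `w` -/
def Wc {G V : Type} [Group G] [MulAction G V] (Hs : Set (Set V)) (A : Subgroup G) (w : Set V) : Set (Set V) :=
  {k ∈ Hs | Sg A k = Sg A w}

/-- the signed number of elements of `W` between `x` and `y` -/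
noncomputable def nu {V : Type} (W : Set (Set V)) (x y : V) : ℤ :=
  ({w ∈ W | x ∉ w ∧ y ∈ w}.ncard : ℤ) - {w ∈ W | x ∈ w ∧ y ∉ w}.ncard

end Pool.Agent.H1.CG
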