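import Pool.Agent.H37.CC.Defs
import Pool.Agent.H1.CG.Defs

/-!
# [CCC GLOBAL Br] Half-spaces as sets of vertices

`hat h = {y : Vtx H | h ∈ y.U}`: an embedding of the partial order `H` in `Set (Vtx H)`. The vertex which contains `h` and not `k` (if not
`h ≤ k`): let `x` be a vertex which contains `h`; if `k ∈ x` exchange the elements `l ≤ k` of `x` and their complements.
-/

set_option autoImplicit false

namespace Pool.Agent.H1.CG

open Pool.Agent.H98.FJ Pool.Agent.H37.PT Pool.Agent.H37.CC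
open scoped Pointwise

section

variable {H : Type} [PartialOrder H] [Bas H]

/-- the vertices which contain `h` -/
def hat (h : H) : Set (Vtx H) := {y | h ∈ y.U}

theorem mem_hat {h : H} {y : Vtx H} : y ∈ hat h ↔ h ∈ y.U := Iff.rfl

theorem hat_st (h : H) : hat (st h) = (hat h)ᶜ := by
  ext y
  rw [mem_hat, Set.mem_compl_iff, mem_hat, y.st_mem]

theorem ds_comm' (y z : Vtx H) : ds y z = ds z y := by
  unfold ds
  have h1 : (z.U \ y.U) = st '' (y.U \ z.U) := by
    ext h
    constructor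
    · rintro ⟨h1, h2⟩
      refine ⟨st h, ⟨y.st_mem.2 h2, ?_⟩, st_st h⟩
      rw [z.st_mem, not_not]
      exact h1
    · rintro ⟨k, ⟨h1, h2⟩, rfl⟩
      refine ⟨z.st_mem.2 h2, ?_⟩
      rw [y.st_mem, not_not]
      exact h1
  rw [h1, Set.ncard_image_of_injective _ (fun a b h => st_inj h)]

theorem ds_tri' (x y z : Vtx H) : ds x z ≤ ds x y + ds y z := by
  unfold ds
  refine (Set.ncard_le_ncard (t := (y.U \ x.U) ∪ (z.U \ y.U)) ?_ ((diff_fin x y).union (diff_fin y z))).trans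
    (Set.ncard_union_le _ _)
  rintro h ⟨h1, h2⟩
  by_cases h3 : h ∈ y.U
  · exact Or.inl ⟨h3, h2⟩
  · exact Or.inr ⟨h1, h3⟩

end

section

variable (G : Type) {H : Type} [Group G] [PartialOrder H] [Bas H] [MulAction G H] [BAct G H]

theorem hat_smul (g : G) (h : H) : hat (g • h) = g • hat h := by
  ext y
  rw [Set.mem_smul_set_iff_inv_smul_mem, mem_hat, mem_hat, mem_smul, inv_inv]

theorem ds_smul' (g : G) (y z : Vtx H) : ds (g • y) (g • z) = ds y z := by
  unfold ds
  have h1 : ((g • z).U \ (g • y).U) = (fun h => g • h) '' (z.U \ y.U) := by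
    ext h
    constructor
    · rintro ⟨h1, h2⟩
      exact ⟨g⁻¹ • h, ⟨h1, h2⟩, smul_inv_smul g h⟩
    · rintro ⟨k, ⟨h1, h2⟩, rfl⟩
      exact ⟨smul_mem_smul.2 h1, fun h3 => h2 (smul_mem_smul.1 h3)⟩
  rw [h1, Set.ncard_image_of_injective _ (MulAction.injective g)]

include G in
theorem exists_mem (h : H) : ∃ y : Vtx H, h ∈ y.U := by
  obtain ⟨g, hg⟩ := BAct.sep (G := G) h
  exact ⟨g • bs, hg⟩

include G in
theorem exists_vtx {h k : H} (hk : ¬ h ≤ k) : ∃ y : Vtx H, h ∈ y.U ∧ k ∉ y.U := by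
  obtain ⟨x, hx⟩ := exists_mem G h
  by_cases hkx : k ∈ x.U
  · obtain ⟨z, hz⟩ := exists_mem G (st k)
    rw [z.st_mem] at hz
    have hD : {l | l ∈ x.U ∧ l ≤ k}.Finite := by
      refine (diff_fin z x).subset ?_
      rintro l ⟨h1, h2⟩
      exact ⟨h1, fun h3 => hz (z.up h3 h2)⟩
    let Y : Set H := {l | (l ∈ x.U ∧ ¬ l ≤ k) ∨ (st l ∈ x.U ∧ st l ≤ k)}
    have hY : IsVertex Y := by
      constructor
      · intro l
        show (st l ∈ x.U ∧ ¬ st l ≤ k) ∨ (st (st l) ∈ x.U ∧ st (st l) ≤ k) ↔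
          ¬ ((l ∈ x.U ∧ ¬ l ≤ k) ∨ (st l ∈ x.U ∧ st l ≤ k))
        rw [st_st, x.st_mem]
        by_cases h1 : l ∈ x.U
        · simp [h1]
        · simp [h1]
      · intro l m hl hlm
        rcases hl with ⟨h1, h2⟩ | ⟨h1, h2⟩
        · exact Or.inl ⟨x.up h1 hlm, fun h3 => h2 (hlm.trans h3)⟩
        · by_cases h3 : m ∈ x.U
          · refine Or.inl ⟨h3, fun h4 => ?_⟩
            have h5 : st m ≤ k := (st_le hlm).trans h2
            have h6 : st k ≤ k := (st_le h4).trans h5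
            have h7 := Poc.not_le (st k)
            rw [st_st] at h7
            exact h7 h6
          · exact Or.inr ⟨x.st_mem.2 h3, (st_le hlm).trans h2⟩
    have hfin : (Y \ Bas.o).Finite := by
      refine ((x.fin).union (hD.image st)).subset ?_
      rintro l ⟨h1, h2⟩
      rcases h1 with ⟨h1, h3⟩ | ⟨h1, h3⟩
      · exact Or.inl ⟨h1, h2⟩
      · exact Or.inr ⟨st l, ⟨h1, h3⟩, st_st l⟩
    refine ⟨⟨Y, hY, hfin⟩, Or.inl ⟨hx, hk⟩, ?_⟩
    rintro (⟨-, h1⟩ | ⟨h1, -⟩)
    · exact h1 (le_refl k)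
    · exact (x.st_mem.1 h1) hkx
  · exact ⟨x, hx, hkx⟩

include G in
theorem hat_le {h k : H} : hat h ⊆ hat k ↔ h ≤ k := by
  constructor
  · intro h1
    by_contra h2
    obtain ⟨y, h3, h4⟩ := exists_vtx G h2
    exact h4 (h1 h3)
  · intro h1 y hy
    exact y.up hy h1

include G in
theorem hat_inj {h k : H} (e : hat h = hat k) : h = k :=
  le_antisymm ((hat_le G).1 e.le) ((hat_le G).1 e.ge)

include G in
theorem hat_lt {h k : H} : hat h ⊂ hat k ↔ h < k := by
  rw [ssubset_iff_subset_not_subset, hat_le G, hat_le G, lt_iff_le_not_ge]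

include G in
theorem hat_cr {h k : H} : Cr (hat h) (hat k) ↔ Crs h k := by
  unfold Cr Crs
  rw [← hat_st, ← hat_st, hat_le G, hat_le G, hat_le G, hat_le G, st_le_comm (h := h)]

theorem sys {n : ℕ} (hd : Dim H n) : Sys G (Set.range (hat : H → Set (Vtx H))) n := by
  classical
  constructor
  · rintro _ ⟨h, rfl⟩
    exact ⟨st h, hat_st h⟩
  · rintro g _ ⟨h, rfl⟩
    exact ⟨g • h, hat_smul G g h⟩
  · intro x y
    refine ((diff_fin y x).image hat).subset ?_
    rintro _ ⟨⟨h, rfl⟩, h1, h2⟩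
    exact ⟨h, ⟨h1, h2⟩, rfl⟩
  · rintro _ ⟨h, rfl⟩
    exact exists_mem G h
  · intro F hF hc
    have hinj : Function.Injective (hat : H → Set (Vtx H)) := fun h k e => hat_inj G e
    have h1 : (F : Set (Set (Vtx H))) ⊆ Set.range hat := hF
    let F' : Finset H := F.preimage hat hinj.injOn
    have h2 : F'.image hat = F := by
      ext w
      rw [Finset.mem_image]
      constructor
      · rintro ⟨h, hh, rfl⟩
        exact Finset.mem_preimage.1 hh
      · intro hw
        obtain ⟨h, rfl⟩ := hF hw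
        exact ⟨h, Finset.mem_preimage.2 hw, rfl⟩
    have h3 := hd F' (by
      intro h hh k hk hne
      rw [← hat_cr G]
      exact hc (Finset.mem_coe.2 (Finset.mem_preimage.1 hh)) (Finset.mem_coe.2 (Finset.mem_preimage.1 hk)) (fun e => hne (hinj e)))
    rw [← h2, Finset.card_image_of_injective _ hinj]
    exact h3

theorem bd {N : ℕ} (hN : BF G H N) : Bd G (Set.range (hat : H → Set (Vtx H))) N := by
  intro B x hB
  obtain ⟨D, hD⟩ := hB
  refine hN B ⟨ds bs x + D + ds x bs, fun b hb => ?_⟩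
  have h1 : ds x (b • x) ≤ D := by
    rw [ds_comm']
    have h2 := hD b hb
    have h3 : {h ∈ Set.range (hat : H → Set (Vtx H)) | x ∈ h ∧ b • x ∉ h} = hat '' (x.U \ (b • x).U) := by
      ext w
      constructor
      · rintro ⟨⟨h, rfl⟩, h4, h5⟩
        exact ⟨h, ⟨h4, h5⟩, rfl⟩
      · rintro ⟨h, ⟨h4, h5⟩, rfl⟩
        exact ⟨⟨h, rfl⟩, h4, h5⟩
    rw [h3, Set.ncard_image_of_injective _ (fun h k e => hat_inj G e)] at h2
    exact h2
  have h4 : ds (b • x) (b • bs) = ds x bs := ds_smul' G b x bs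
  have h5 := ds_tri' bs x (b • bs)
  have h6 := ds_tri' x (b • x) (b • bs)
  omega

theorem stab_hat (w : H) : MulAction.stabilizer G (hat w) = MulAction.stabilizer G w := by
  ext g
  rw [MulAction.mem_stabilizer_iff, MulAction.mem_stabilizer_iff, ← hat_smul]
  exact ⟨fun h => hat_inj G h, fun h => by rw [h]⟩

end

end Pool.Agent.H1.CG
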