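import Pool.Agent.H1.CG.Bas
import Pool.Agent.H1.CG.Skw
import Pool.Agent.H76.VC.ComMem
import Pool.Agent.H76.VC.Ab

/-!
# [CCC GLOBAL Cen] (4.7): centralisers of elements of infinite order

`cen0`: `c • w ⊂ w`. Let `x : V`, `z` in the centraliser of `c`. By `absorb`, `absorb'` for `z • w` there is `i : ℤ` with `x ∉ c ^ i • z • w`, `c • x ∈ c ^ i • z • w`: this half-space is in the finite set `L = {k | x ∉ k, c • x ∈ k}`.
So the subgroup of the `z` with `z • w = c ^ i • w` for some `i : ℤ` has finite index. `i = i(z)` is unique; `z ↦ (z c ^ (-i(z)), i(z))` is an injective homomorphism to `Stab(w) × Multiplicative ℤ`.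
`cen_mem`: by `skewer` a power of `c` satisfies the hypothesis of `cen0`. `vcen`: directed union of the centralisers of `z ^ (n!)`.
-/

set_option autoImplicit false

namespace Pool.Agent.H1.CG

open Pool.Agent.H98.FJ Pool.Agent.H37.PT
open scoped Pointwise

variable {G V : Type} [Group G] [MulAction G V] {Hs : Set (Set V)} {n N : ℕ}

private theorem ss_smul (g : G) {a b : Set V} (h : a ⊂ b) : g • a ⊂ g • b :=
  ⟨Set.smul_set_mono h.1, fun hh => h.2 (Set.smul_set_subset_smul_set_iff.1 hh)⟩

private theorem cen0 {C : (G : Type) → [Group G] → Prop} (hC : Inherits C) (hS : Sys G Hs n) [hne : Nonempty V]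
    {w : Set V} (hwH : w ∈ Hs) (hw : C (MulAction.stabilizer G w)) {c : G} (h : c • w ⊂ w) :
    C (Subgroup.centralizer {c} : Subgroup G) := by
  classical
  obtain ⟨x⟩ := hne
  -- positive powers
  have hpos : ∀ m : ℕ, c ^ (m + 1) • w ⊂ w := by
    intro m
    induction m with
    | zero => rwa [zero_add, pow_one]
    | succ m ih =>
      rw [pow_succ, mul_smul]
      exact (ss_smul _ h).trans ih
  have huniq : ∀ i : ℤ, c ^ i • w = w → i = 0 := by
    intro i hi
    by_contra hi0
    have key : ∀ m : ℕ, c ^ ((m : ℤ) + 1) • w ≠ w := by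
      intro m hm
      have h1 := hpos m
      have h2 : c ^ ((m : ℤ) + 1) = c ^ (m + 1) := by
        rw [← zpow_natCast]
        push_cast
        rfl
      rw [← h2, hm] at h1
      exact h1.2 (Set.Subset.refl _)
    rcases lt_or_gt_of_ne hi0 with h1 | h1
    · have h2 : c ^ (-i) • w = w := by
        conv_lhs => rw [← hi]
        rw [← mul_smul, ← zpow_add, neg_add_cancel, zpow_zero, one_smul]
      have h3 : -i = (((-i - 1).toNat : ℕ) : ℤ) + 1 := by omega
      rw [h3] at h2
      exact key _ h2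
    · have h3 : i = (((i - 1).toNat : ℕ) : ℤ) + 1 := by omega
      rw [h3] at hi
      exact key _ hi
  have hcm : ∀ g ∈ Subgroup.centralizer {c}, ∀ l : ℤ, g * c ^ l = c ^ l * g := fun g hg l =>
    ((show Commute g c from Subgroup.mem_centralizer_singleton_iff.1 hg).zpow_right l).eq
  -- every translate of `w` meets the finite set
  have hL : ∀ z ∈ Subgroup.centralizer {c}, ∃ i : ℤ, c ^ i • z • w ∈ {k ∈ Hs | c • x ∈ k ∧ x ∉ k} := by
    intro z hz
    have hzc := Subgroup.mem_centralizer_singleton_iff.1 hz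
    have hzw : c • z • w ⊂ z • w := by
      rw [← mul_smul, ← hzc, mul_smul]
      exact ss_smul z h
    obtain ⟨i0, h1⟩ := absorb hS (hS.smul z w hwH) hzw x
    obtain ⟨i1, h2⟩ := absorb' hS (hS.smul z w hwH) hzw x
    have hex : ∃ j : ℕ, x ∉ c ^ (-(i0 : ℤ) + j) • z • w := by
      refine ⟨i0 + i1, ?_⟩
      have h3 := h2 i1 le_rfl
      intro h4
      apply h3
      rw [Set.mem_smul_set_iff_inv_smul_mem, ← zpow_neg] at h4
      have h5 : c⁻¹ ^ i1 = c ^ (-(-(i0 : ℤ) + ((i0 + i1 : ℕ) : ℤ))) := by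
        rw [inv_pow, ← zpow_natCast, ← zpow_neg]
        congr 1
        push_cast
        ring
      rw [h5]
      exact h4
    have hj0 : Nat.find hex ≠ 0 := by
      intro h3
      have h4 := Nat.find_spec hex
      rw [h3] at h4
      apply h4
      rw [Set.mem_smul_set_iff_inv_smul_mem, ← zpow_neg]
      have h5 : c ^ (-(-(i0 : ℤ) + ((0 : ℕ) : ℤ))) = c ^ i0 := by
        rw [← zpow_natCast]
        congr 1
        push_cast
        ring
      rw [h5]
      exact h1 i0 le_rfl
    refine ⟨-(i0 : ℤ) + (Nat.find hex : ℕ), hS.smul _ _ (hS.smul z w hwH), ?_, Nat.find_spec hex⟩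
    have h6 := Nat.find_min hex (Nat.sub_one_lt hj0)
    rw [not_not] at h6
    have h7 : c ^ (-(i0 : ℤ) + (Nat.find hex : ℕ)) • z • w = c • c ^ (-(i0 : ℤ) + (Nat.find hex - 1 : ℕ)) • z • w := by
      rw [← mul_smul c, ← zpow_one_add]
      congr 2
      have h8 : ((Nat.find hex - 1 : ℕ) : ℤ) = (Nat.find hex : ℤ) - 1 := by omega
      rw [h8]
      ring
    rw [h7]
    exact Set.smul_mem_smul_set h6
  choose! l hl using hL
  -- the subgroup
  let Z0 : Subgroup (Subgroup.centralizer {c} : Subgroup G) :=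
    { carrier := {z | ∃ i : ℤ, (z : G) • w = c ^ i • w}
      one_mem' := ⟨0, by
        show (1 : G) • w = _
        rw [zpow_zero]⟩
      mul_mem' := by
        rintro a b ⟨i, hi⟩ ⟨j, hj⟩
        refine ⟨i + j, ?_⟩
        show ((a : G) * (b : G)) • w = _
        rw [mul_smul, hj, ← mul_smul, hcm a a.2, mul_smul, hi, ← mul_smul, ← zpow_add, add_comm]
      inv_mem' := by
        rintro a ⟨i, hi⟩
        refine ⟨-i, ?_⟩
        show ((a : G)⁻¹) • w = _
        rw [inv_smul_eq_iff, ← mul_smul, hcm a a.2, mul_smul, hi, ← mul_smul, ← zpow_add, neg_add_cancel, zpow_zero,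
          one_smul] }
  have hZ0 : ∀ z : (Subgroup.centralizer {c} : Subgroup G), z ∈ Z0 ↔ ∃ i : ℤ, (z : G) • w = c ^ i • w := fun z => Iff.rfl
  have hfi : Z0.FiniteIndex := by
    have h1 : {k ∈ Hs | c • x ∈ k ∧ x ∉ k}.Finite := hS.fin _ _
    have h2 : Finite {k ∈ Hs | c • x ∈ k ∧ x ∉ k} := h1
    have h3 : Finite ((Subgroup.centralizer {c} : Subgroup G) ⧸ Z0) := by
      refine Finite.of_injective (β := {k ∈ Hs | c • x ∈ k ∧ x ∉ k})
        (fun q => ⟨c ^ l (q.out : G) • (q.out : G) • w, hl _ q.out.2⟩) ?_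
      intro q q' hqq
      have h4 : c ^ l (q.out : G) • (q.out : G) • w = c ^ l (q'.out : G) • (q'.out : G) • w := congrArg Subtype.val hqq
      rw [← QuotientGroup.out_eq' q, ← QuotientGroup.out_eq' q']
      refine (QuotientGroup.eq).2 ?_
      rw [hZ0]
      refine ⟨l (q.out : G) - l (q'.out : G), ?_⟩
      show ((q.out : G)⁻¹ * (q'.out : G)) • w = _
      rw [mul_smul, inv_smul_eq_iff, ← mul_smul, hcm _ q.out.2, mul_smul, sub_eq_neg_add, zpow_add, mul_smul, h4, ← mul_smul,
        ← zpow_add, neg_add_cancel, zpow_zero, one_smul]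
    exact Subgroup.finiteIndex_of_finite_quotient
  refine hC.index _ Z0 hfi ?_
  have hex : ∀ z : Z0, ∃ i : ℤ, ((z : (Subgroup.centralizer {c} : Subgroup G)) : G) • w = c ^ i • w := fun z => z.2
  choose q hq using hex
  have hqu : ∀ (z : Z0) (i : ℤ), ((z : (Subgroup.centralizer {c} : Subgroup G)) : G) • w = c ^ i • w → i = q z := by
    intro z i hi
    have h1 : c ^ i • w = c ^ q z • w := by rw [← hi, hq]
    have h2 : c ^ (-q z + i) • w = w := by
      rw [zpow_add, mul_smul, h1, ← mul_smul, ← zpow_add, neg_add_cancel, zpow_zero, one_smul]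
    have h3 := huniq _ h2
    omega
  have hqm : ∀ a b : Z0, q (a * b) = q a + q b := by
    intro a b
    symm
    apply hqu
    show (((a : (Subgroup.centralizer {c} : Subgroup G)) : G) * ((b : (Subgroup.centralizer {c} : Subgroup G)) : G)) • w = _
    rw [mul_smul, hq b, ← mul_smul, hcm _ (a : (Subgroup.centralizer {c} : Subgroup G)).2, mul_smul, hq a, ← mul_smul,
      ← zpow_add, add_comm]
  have hst : ∀ z : Z0, ((z : (Subgroup.centralizer {c} : Subgroup G)) : G) * c ^ (-q z) ∈ MulAction.stabilizer G w := by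
    intro z
    rw [MulAction.mem_stabilizer_iff, hcm _ (z : (Subgroup.centralizer {c} : Subgroup G)).2, mul_smul, hq z, ← mul_smul,
      ← zpow_add, neg_add_cancel, zpow_zero, one_smul]
  let Φ : Z0 →* MulAction.stabilizer G w × Multiplicative ℤ :=
    MonoidHom.mk' (fun g => (⟨((g : (Subgroup.centralizer {c} : Subgroup G)) : G) * c ^ (-q g), hst g⟩,
      Multiplicative.ofAdd (q g))) (by
      intro a b
      refine Prod.ext (Subtype.ext ?_) ?_
      · show ((a : (Subgroup.centralizer {c} : Subgroup G)) : G) * ((b : (Subgroup.centralizer {c} : Subgroup G)) : G) *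
          c ^ (-q (a * b)) = ((a : (Subgroup.centralizer {c} : Subgroup G)) : G) * c ^ (-q a) *
            (((b : (Subgroup.centralizer {c} : Subgroup G)) : G) * c ^ (-q b))
        have h1 : c ^ (-q a) * ((b : (Subgroup.centralizer {c} : Subgroup G)) : G) =
            ((b : (Subgroup.centralizer {c} : Subgroup G)) : G) * c ^ (-q a) :=
          (hcm _ (b : (Subgroup.centralizer {c} : Subgroup G)).2 _).symm
        rw [hqm, neg_add, zpow_add, mul_assoc (((a : (Subgroup.centralizer {c} : Subgroup G)) : G)) (c ^ (-q a)),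
          ← mul_assoc (c ^ (-q a)), h1]
        group
      · show Multiplicative.ofAdd (q (a * b)) = Multiplicative.ofAdd (q a) * Multiplicative.ofAdd (q b)
        rw [hqm, ofAdd_add])
  refine hC.of_injective Φ ?_ (Pool.Agent.H76.VC.prod_mem hC hw hC.int)
  rw [injective_iff_map_eq_one]
  intro g hg
  have h1 : q g = 0 := congrArg (fun p => Multiplicative.toAdd p.2) hg
  have h2 : ((g : (Subgroup.centralizer {c} : Subgroup G)) : G) * c ^ (-q g) = 1 := congrArg (fun p => (p.1 : G)) hg
  rw [h1, neg_zero, zpow_zero, mul_one] at h2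
  exact Subtype.ext (Subtype.ext h2)

theorem cen_mem {C : (G : Type) → [Group G] → Prop} (hC : Inherits C) (hS : Sys G Hs n) (hB : Bd G Hs N) [Nonempty V]
    (hw : ∀ w ∈ Hs, C (MulAction.stabilizer G w)) {c : G} (hc : ¬ IsOfFinOrder c) :
    C (Subgroup.centralizer {c} : Subgroup G) := by
  obtain ⟨w, hwH, m, -, hm⟩ := skewer hS hB hc
  have h1 := cen0 hC hS hwH (hw w hwH) hm
  refine hC.of_injective (H := (Subgroup.centralizer {c ^ m} : Subgroup G))
    { toFun := fun g => ⟨g.1, by
        rw [Subgroup.mem_centralizer_singleton_iff]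
        exact ((show Commute (g : G) c from Subgroup.mem_centralizer_singleton_iff.1 g.2).pow_right m).eq⟩
      map_one' := rfl
      map_mul' := fun _ _ => rfl } ?_ h1
  intro a b hab
  exact Subtype.ext (congrArg (fun w : (Subgroup.centralizer {c ^ m} : Subgroup G) => (w : G)) hab)

theorem vcen {C : (G : Type) → [Group G] → Prop} (hC : Inherits C) (hS : Sys G Hs n) (hB : Bd G Hs N) [Nonempty V]
    (hw : ∀ w ∈ Hs, C (MulAction.stabilizer G w)) {c : G} (hc : ¬ IsOfFinOrder c) : C (Pool.Agent.H76.VC.VCen c) := by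
  refine hC.union (G := Pool.Agent.H76.VC.VCen c) (ι := ℕ)
    (fun n => (Subgroup.centralizer {c ^ (n.factorial : ℤ)} : Subgroup G).subgroupOf (Pool.Agent.H76.VC.VCen c)) ?_ ?_ ?_
  · intro n m hnm x hx
    rw [Subgroup.mem_subgroupOf, Subgroup.mem_centralizer_singleton_iff] at hx ⊢
    obtain ⟨k, hk⟩ := Nat.factorial_dvd_factorial hnm
    have h1 : Commute (x : G) (c ^ (n.factorial : ℤ)) := hx
    have h2 := h1.zpow_right (k : ℤ)
    rw [← zpow_mul] at h2
    rw [hk]
    push_cast
    exact h2
  · rintro ⟨g, m, hm, h1⟩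
    refine ⟨m.natAbs, ?_⟩
    rw [Subgroup.mem_subgroupOf, Subgroup.mem_centralizer_singleton_iff]
    have h2 : m ∣ (m.natAbs.factorial : ℤ) := by
      rw [← Int.natAbs_dvd]
      exact_mod_cast Nat.dvd_factorial (Int.natAbs_pos.2 hm) le_rfl
    obtain ⟨k, hk⟩ := h2
    have h3 : Commute g (c ^ m) := by
      have h4 : g * c ^ m = c ^ m * g := by
        rw [← mul_inv_eq_iff_eq_mul]
        exact h1
      exact h4
    have h5 := h3.zpow_right k
    rw [← zpow_mul, ← hk] at h5
    exact h5
  · intro n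
    have h0 : ¬ IsOfFinOrder (c ^ (n.factorial : ℤ)) := by
      rw [zpow_natCast]
      intro h1
      exact hc ((isOfFinOrder_pow.1 h1).resolve_right (Nat.factorial_ne_zero n))
    have h1 := cen_mem hC hS hB hw h0
    refine hC.of_injective (H := (Subgroup.centralizer {c ^ (n.factorial : ℤ)} : Subgroup G))
      { toFun := fun x => ⟨x.1.1, x.2⟩
        map_one' := rfl
        map_mul' := fun _ _ => rfl } ?_ h1
    intro a b hab
    exact Subtype.ext (Subtype.ext (congrArg
      (fun w : (Subgroup.centralizer {c ^ (n.factorial : ℤ)} : Subgroup G) => (w : G)) hab))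

end Pool.Agent.H1.CG
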