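import Pool.Agent.H1.CG.Bas

/-!
# [CCC GLOBAL Cls] (4.3): the classes of half-spaces skewered by an abelian group

`sg_pow`: `Sk x w ↔ Sk (x ^ m) w`, `0 < m`. `sg_nested`: `x ∈ Sg A w`, `y = x ^ m ∈ A`, `y ^ k w < w`; `tri` for `w'` and `y`; the cases `y ^ n! w' = w'`, `w' < y ^ n! w'` are
excluded by `no_nest` for `y ^ (k n!)`. `exists_cls`: `F` a maximal finite set of pairwise crossing half-spaces `w ∈ Hs` with `Sg A w` not empty: every other
one is nested with some `f` or `fᶜ`, `f ∈ F`: at most `2 n` classes.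
-/

set_option autoImplicit false

namespace Pool.Agent.H1.CG

open Pool.Agent.H98.FJ Pool.Agent.H37.PT
open scoped Pointwise

variable {G V : Type} [Group G] [MulAction G V] {Hs : Set (Set V)} {n : ℕ} {A : Subgroup G}

theorem sk_pow {g : G} {w : Set V} {m : ℕ} (hm : 0 < m) : Sk (g ^ m) w ↔ Sk g w := by
  constructor
  · rintro ⟨k, hk, h⟩
    refine ⟨m * k, Nat.mul_pos hm hk, ?_⟩
    rwa [pow_mul]
  · rintro ⟨k, hk, h⟩
    refine ⟨k, hk, ?_⟩
    rw [← pow_mul, mul_comm, pow_mul]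
    exact cg_pow_ssub h hm

private theorem ssub_iff (g : G) (s t : Set V) : g • s ⊂ g • t ↔ s ⊂ t := by
  rw [ssubset_iff_subset_not_subset, ssubset_iff_subset_not_subset, Set.smul_set_subset_smul_set_iff,
    Set.smul_set_subset_smul_set_iff]

theorem sk_smul {g x : G} {w : Set V} : Sk x (g • w) ↔ Sk (g⁻¹ * x * g) w := by
  have key : ∀ m : ℕ, (x ^ m • g • w ⊂ g • w ↔ (g⁻¹ * x * g) ^ m • w ⊂ w) := by
    intro m
    have h1 : (g⁻¹ * x * g) ^ m = g⁻¹ * x ^ m * g := by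
      have h2 := conj_pow (i := m) (a := g⁻¹) (b := x)
      rwa [inv_inv] at h2
    have h3 : g • ((g⁻¹ * x * g) ^ m • w) = x ^ m • g • w := by
      rw [h1, ← mul_smul, ← mul_smul]
      congr 1
      group
    rw [← h3, ssub_iff]
  constructor
  · rintro ⟨m, hm, h⟩
    exact ⟨m, hm, (key m).1 h⟩
  · rintro ⟨m, hm, h⟩
    exact ⟨m, hm, (key m).2 h⟩

theorem tri_A (hS : Sys G Hs n) (hA : ∀ x ∈ A, ∀ y ∈ A, x * y = y * x) {w : Set V} (hw : w ∈ Hs) (h : (Sg A w).Nonempty)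
    {a : G} (ha : a ∈ A) : a ^ n.factorial • w = w ∨ a ^ n.factorial • w ⊂ w ∨ w ⊂ a ^ n.factorial • w := by
  obtain ⟨x, ⟨m, hm, hx⟩, hk⟩ := h
  obtain ⟨k, hk, h1⟩ := (sk_pow hm).2 hk
  exact tri hS (hA _ (A.pow_mem hx k) _ ha) hw h1

theorem sg_nested (hS : Sys G Hs n) (hA : ∀ x ∈ A, ∀ y ∈ A, x * y = y * x) {w w' : Set V} (hw : w ∈ Hs) (hw' : w' ∈ Hs)
    (h : (Sg A w).Nonempty) (h' : (Sg A w').Nonempty) (hn : w ⊆ w' ∨ w' ⊆ w) : Sg A w = Sg A w' := by
  have key : ∀ {w w' : Set V}, w ∈ Hs → w' ∈ Hs → (Sg A w').Nonempty → (w ⊆ w' ∨ w' ⊆ w) → Sg A w ⊆ Sg A w' := by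
    intro w w' hw hw' h' hn x hx
    obtain ⟨⟨m, hm, hxm⟩, hsk⟩ := hx
    refine ⟨⟨m, hm, hxm⟩, ?_⟩
    obtain ⟨k, hk, h1⟩ := (sk_pow hm).2 hsk
    have hP : 0 < n.factorial := Nat.factorial_pos n
    have h2 : (x ^ m) ^ (k * n.factorial) • w ⊂ w := by
      rw [pow_mul]
      exact cg_pow_ssub h1 hP
    have h3 : ¬ w' ⊆ (x ^ m) ^ (k * n.factorial) • w' := by
      intro h4
      have h5 := no_nest hS hw hw' h2 h4
      rcases hn with hn | hn
      · exact h5.1 hn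
      · exact h5.2 hn
    rcases tri_A hS hA hw' h' hxm with h4 | h4 | h4
    · exfalso
      apply h3
      have h5 : ∀ k : ℕ, (x ^ m) ^ (k * n.factorial) • w' = w' := by
        intro k
        induction k with
        | zero => rw [zero_mul, pow_zero, one_smul]
        | succ k ih => rw [add_mul, one_mul, pow_add, mul_smul, h4, ih]
      rw [h5]
    · exact (sk_pow hm).1 ⟨n.factorial, hP, h4⟩
    · exfalso
      apply h3
      have h5 : ∀ k : ℕ, w' ⊆ (x ^ m) ^ (k * n.factorial) • w' := by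
        intro k
        induction k with
        | zero => rw [zero_mul, pow_zero, one_smul]
        | succ k ih =>
          rw [add_mul, one_mul, pow_add, mul_smul]
          exact ih.trans (Set.smul_set_mono h4.1)
      exact h5 k
  exact Set.Subset.antisymm (key hw hw' h' hn) (key hw' hw h hn.symm)

theorem sg_smul {g : G} (hg : g ∈ St A) (w : Set V) (x : G) : x ∈ Sg A (g • w) ↔ g⁻¹ * x * g ∈ Sg A w := by
  constructor
  · rintro ⟨h1, h2⟩
    exact ⟨(hg x).2 h1, sk_smul.1 h2⟩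
  · rintro ⟨h1, h2⟩
    exact ⟨(hg x).1 h1, sk_smul.2 h2⟩

theorem sg_A (hA : ∀ x ∈ A, ∀ y ∈ A, x * y = y * x) {a : G} (ha : a ∈ A) (w : Set V) : Sg A (a • w) = Sg A w := by
  ext x
  have key : x ∈ Rt A → (Sk x (a • w) ↔ Sk x w) := by
    rintro ⟨m, hm, hx⟩
    rw [← sk_pow hm, sk_smul, mul_assoc, hA _ hx _ ha, inv_mul_cancel_left, sk_pow hm]
  constructor
  · rintro ⟨h1, h2⟩
    exact ⟨h1, (key h1).1 h2⟩
  · rintro ⟨h1, h2⟩
    exact ⟨h1, (key h1).2 h2⟩

/-- a group is in the stabiliser of its root set -/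
theorem le_St {a : G} (ha : a ∈ A) : a ∈ St A := by
  have key : ∀ a ∈ A, ∀ x, x ∈ Rt A → a⁻¹ * x * a ∈ Rt A := by
    rintro a ha x ⟨m, hm, hx⟩
    refine ⟨m, hm, ?_⟩
    have h1 : (a⁻¹ * x * a) ^ m = a⁻¹ * x ^ m * a := by
      have h2 := conj_pow (i := m) (a := a⁻¹) (b := x)
      rwa [inv_inv] at h2
    rw [h1]
    exact A.mul_mem (A.mul_mem (A.inv_mem ha) hx) ha
  intro x
  refine ⟨fun h => ?_, key a ha x⟩
  have h1 := key a⁻¹ (A.inv_mem ha) _ h
  have e : a⁻¹⁻¹ * (a⁻¹ * x * a) * a⁻¹ = x := by group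
  rwa [e] at h1

theorem wc_smul (hS : Sys G Hs n) {g : G} (hg : g ∈ St A) (w : Set V) : g • Wc Hs A w = Wc Hs A (g • w) := by
  have hgi : g⁻¹ ∈ St A := (St A).inv_mem hg
  have key : ∀ k k' : Set V, ∀ g ∈ St A, Sg A k = Sg A k' → Sg A (g • k) = Sg A (g • k') := by
    intro k k' g hg h
    ext x
    rw [sg_smul hg, sg_smul hg, h]
  ext k
  rw [Set.mem_smul_set_iff_inv_smul_mem]
  constructor
  · rintro ⟨h1, h2⟩
    have h3 := hS.smul g _ h1
    have h4 := key _ _ g hg h2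
    rw [smul_inv_smul] at h3 h4
    exact ⟨h3, h4⟩
  · rintro ⟨h1, h2⟩
    refine ⟨hS.smul _ _ h1, ?_⟩
    have h4 := key _ _ _ hgi h2
    rwa [inv_smul_smul] at h4

private theorem sg_compl {w : Set V} (h : (Sg A w).Nonempty) : (Sg A wᶜ).Nonempty := by
  obtain ⟨x, ⟨m, hm, hx⟩, k, hk, h1⟩ := h
  refine ⟨x⁻¹, ⟨m, hm, ?_⟩, k, hk, ?_⟩
  · rw [inv_pow]
    exact A.inv_mem hx
  · rw [inv_pow]
    exact cg_ssub_compl h1

theorem exists_cls (hS : Sys G Hs n) (hA : ∀ x ∈ A, ∀ y ∈ A, x * y = y * x) : ∃ e : Fin (2 * n) → Set (Set V),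
    (∀ i, e i ⊆ Hs) ∧ (∀ i, ∀ a ∈ A, a • e i = e i) ∧ (∀ w ∈ Hs, (Sg A w).Nonempty → ∃ i, e i = Wc Hs A w) ∧
    ∀ i, ∀ g ∈ St A, ∃ j, g • e i = e j := by
  classical
  let P : ℕ → Prop := fun c => ∃ F : Finset (Set V), (∀ f ∈ F, f ∈ Hs ∧ (Sg A f).Nonempty) ∧
    (F : Set (Set V)).Pairwise Cr ∧ F.card = c
  have hP0 : P 0 := ⟨∅, by simp, by simp, by simp⟩
  obtain ⟨F, hF, hFc, hFn⟩ : P (Nat.findGreatest P n) := Nat.findGreatest_spec (Nat.zero_le n) hP0
  have hFcard : F.card ≤ n := by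
    rw [hFn]
    exact Nat.findGreatest_le n
  have hsym : ∀ h k : Set V, Cr h k → Cr k h := by
    rintro h k ⟨h1, h2, h3, h4⟩
    refine ⟨h2, h1, fun h5 => h3 ?_, fun h5 => h4 ?_⟩
    · exact Set.subset_compl_comm.1 h5
    · exact Set.compl_subset_comm.1 h5
  have hmax : ∀ w ∈ Hs, (Sg A w).Nonempty → ∃ f ∈ F, ¬ Cr w f := by
    intro w hw hne
    by_contra hcon
    push Not at hcon
    have hwF : w ∉ F := fun h => (hcon w h).1 (le_refl w)
    have hP : P (F.card + 1) := by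
      refine ⟨insert w F, ?_, ?_, Finset.card_insert_of_notMem hwF⟩
      · intro f hf
        rcases Finset.mem_insert.1 hf with rfl | hf
        · exact ⟨hw, hne⟩
        · exact hF f hf
      · rw [Finset.coe_insert]
        intro a ha b hb hab
        rcases ha with rfl | ha
        · rcases hb with rfl | hb
          · exact absurd rfl hab
          · exact hcon b hb
        · rcases hb with rfl | hb
          · exact hsym _ _ (hcon a ha)
          · exact hFc ha hb hab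
    have hle : F.card + 1 ≤ n := by
      obtain ⟨F', hF', hF'c, hF'n⟩ := hP
      rw [← hF'n]
      exact hS.dim F' (fun f hf => (hF' f hf).1) hF'c
    have h1 := Nat.le_findGreatest hle hP
    omega
  let F' : Finset (Set V) := F ∪ F.image (fun f => fᶜ)
  have hF'card : F'.card ≤ 2 * n := by
    have h1 := Finset.card_union_le F (F.image (fun f => fᶜ))
    have h2 : (F.image (fun f => fᶜ)).card ≤ F.card := Finset.card_image_le
    have h3 : F'.card ≤ F.card + (F.image (fun f => fᶜ)).card := h1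
    omega
  have hF' : ∀ f ∈ F', f ∈ Hs ∧ (Sg A f).Nonempty := by
    intro f hf
    rcases Finset.mem_union.1 hf with h | h
    · exact hF f h
    · obtain ⟨k, hk, rfl⟩ := Finset.mem_image.1 h
      exact ⟨hS.compl k (hF k hk).1, sg_compl (hF k hk).2⟩
  have hrep : ∀ w ∈ Hs, (Sg A w).Nonempty → ∃ f ∈ F', Sg A w = Sg A f := by
    intro w hw hne
    obtain ⟨f, hf, hcr⟩ := hmax w hw hne
    have hfc : fᶜ ∈ F' := Finset.mem_union_right _ (Finset.mem_image_of_mem _ hf)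
    have hf' : f ∈ F' := Finset.mem_union_left _ hf
    by_cases h1 : w ⊆ f ∨ f ⊆ w
    · exact ⟨f, hf', sg_nested hS hA hw (hF' f hf').1 hne (hF' f hf').2 h1⟩
    · refine ⟨fᶜ, hfc, sg_nested hS hA hw (hF' _ hfc).1 hne (hF' _ hfc).2 ?_⟩
      rw [not_or] at h1
      by_contra h2
      rw [not_or] at h2
      exact hcr ⟨h1.1, h1.2, h2.1, fun h3 => h2.2 (Set.compl_subset_comm.1 h3)⟩
  let e : Fin (2 * n) → Set (Set V) := fun i => if h : (i : ℕ) < F'.card then Wc Hs A (F'.equivFin.symm ⟨i, h⟩) else ∅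
  have he : ∀ i, e i = ∅ ∨ ∃ f ∈ F', e i = Wc Hs A f := by
    intro i
    by_cases h : (i : ℕ) < F'.card
    · right
      exact ⟨_, (F'.equivFin.symm ⟨i, h⟩).2, dif_pos h⟩
    · left
      exact dif_neg h
  have hcov : ∀ w ∈ Hs, (Sg A w).Nonempty → ∃ i, e i = Wc Hs A w := by
    intro w hw hne
    obtain ⟨f, hf, hwf⟩ := hrep w hw hne
    have h1 : ((F'.equivFin ⟨f, hf⟩ : Fin F'.card) : ℕ) < F'.card := (F'.equivFin ⟨f, hf⟩).2
    refine ⟨⟨(F'.equivFin ⟨f, hf⟩ : Fin F'.card), h1.trans_le hF'card⟩, ?_⟩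
    have h2 : e ⟨(F'.equivFin ⟨f, hf⟩ : Fin F'.card), h1.trans_le hF'card⟩ =
        Wc Hs A (F'.equivFin.symm (F'.equivFin ⟨f, hf⟩)) := dif_pos h1
    rw [h2, Equiv.symm_apply_apply]
    unfold Wc
    rw [hwf]
  refine ⟨e, ?_, ?_, hcov, ?_⟩
  · intro i
    rcases he i with h | ⟨f, -, h⟩
    · rw [h]
      exact Set.empty_subset _
    · rw [h]
      exact fun k hk => hk.1
  · intro i a ha
    rcases he i with h | ⟨f, -, h⟩
    · rw [h, Set.smul_set_empty]
    · rw [h, wc_smul hS (le_St ha)]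
      unfold Wc
      rw [sg_A hA ha]
  · intro i g hg
    rcases he i with h | ⟨f, hf, h⟩
    · exact ⟨i, by rw [h, Set.smul_set_empty]⟩
    · rw [h, wc_smul hS hg]
      obtain ⟨x, hx⟩ := (hF' f hf).2
      obtain ⟨j, hj⟩ := hcov (g • f) (hS.smul g f (hF' f hf).1) ⟨g * x * g⁻¹, by
        rw [sg_smul hg]
        have e1 : g⁻¹ * (g * x * g⁻¹) * g = x := by group
        rwa [e1]⟩
      exact ⟨j, hj.symm⟩

end Pool.Agent.H1.CG
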