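import Pool.Agent.H1.CG.Defs

/-!
# [CCC GLOBAL Nu] The signed number of half-spaces between two points

Let `F` be the finite set of the `w ∈ W` which separate two of the points `x, y, z`: `nu W a b = ∑ w ∈ F, ([b ∈ w] - [a ∈ w])` for
`a, b ∈ {x, y, z}`, so `nu_add`. `nu_smul`: the bijection `w ↦ g • w` (`{w ∈ g • W | ..} = g • {w ∈ W | ..}`, `Set.ncard_image_of_injective`).
-/

set_option autoImplicit false

namespace Pool.Agent.H1.CG

open Pool.Agent.H98.FJ Pool.Agent.H37.PT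
open scoped Pointwise

variable {G V : Type} [Group G] [MulAction G V] {Hs : Set (Set V)}

theorem nu_self (W : Set (Set V)) (x : V) : nu W x x = 0 := by
  unfold nu
  have h1 : {w ∈ W | x ∉ w ∧ x ∈ w} = ∅ := by
    ext w
    simp
  have h2 : {w ∈ W | x ∈ w ∧ x ∉ w} = ∅ := by
    ext w
    simp
  rw [h1, h2]
  simp

private theorem nuH_fin (hf : ∀ x y, {h ∈ Hs | x ∈ h ∧ y ∉ h}.Finite) {W : Set (Set V)} (hW : W ⊆ Hs) (x y : V) :
    {w ∈ W | x ∈ w ∧ y ∉ w}.Finite :=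
  (hf x y).subset fun _ hw => ⟨hW hw.1, hw.2⟩

open Classical in
private theorem nuH_sum {W : Set (Set V)} (F : Finset (Set V)) (hF : ∀ w ∈ F, w ∈ W) {a b : V}
    (h1 : ∀ w ∈ W, a ∈ w → b ∉ w → w ∈ F) (h2 : ∀ w ∈ W, b ∈ w → a ∉ w → w ∈ F) :
    nu W a b = ∑ w ∈ F, ((if b ∈ w then (1 : ℤ) else 0) - (if a ∈ w then (1 : ℤ) else 0)) := by
  unfold nu
  have e1 : {w ∈ W | a ∉ w ∧ b ∈ w} = ((F.filter fun w => a ∉ w ∧ b ∈ w : Finset (Set V)) : Set (Set V)) := by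
    ext w
    simp only [Set.mem_setOf_eq, Finset.coe_filter]
    constructor
    · rintro ⟨h3, h4, h5⟩
      exact ⟨h2 w h3 h5 h4, h4, h5⟩
    · rintro ⟨h3, h4⟩
      exact ⟨hF w h3, h4⟩
  have e2 : {w ∈ W | a ∈ w ∧ b ∉ w} = ((F.filter fun w => a ∈ w ∧ b ∉ w : Finset (Set V)) : Set (Set V)) := by
    ext w
    simp only [Set.mem_setOf_eq, Finset.coe_filter]
    constructor
    · rintro ⟨h3, h4, h5⟩
      exact ⟨h1 w h3 h4 h5, h4, h5⟩
    · rintro ⟨h3, h4⟩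
      exact ⟨hF w h3, h4⟩
  rw [e1, e2, Set.ncard_coe_finset, Set.ncard_coe_finset, Finset.card_filter, Finset.card_filter]
  push_cast
  rw [← Finset.sum_sub_distrib]
  refine Finset.sum_congr rfl fun w _ => ?_
  by_cases ha : a ∈ w <;> by_cases hb : b ∈ w <;> simp [ha, hb]

open Classical in
theorem nu_add (hf : ∀ x y, {h ∈ Hs | x ∈ h ∧ y ∉ h}.Finite) {W : Set (Set V)} (hW : W ⊆ Hs) (x y z : V) :
    nu W x z = nu W x y + nu W y z := by
  obtain ⟨F, hF⟩ : ∃ F : Finset (Set V), ∀ w, w ∈ F ↔ w ∈ W ∧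
      ((x ∈ w ∧ y ∉ w) ∨ (y ∈ w ∧ x ∉ w) ∨ (x ∈ w ∧ z ∉ w) ∨ (z ∈ w ∧ x ∉ w) ∨ (y ∈ w ∧ z ∉ w) ∨ (z ∈ w ∧ y ∉ w)) := by
    have hfin : ({w ∈ W | x ∈ w ∧ y ∉ w} ∪ {w ∈ W | y ∈ w ∧ x ∉ w} ∪ {w ∈ W | x ∈ w ∧ z ∉ w} ∪
        {w ∈ W | z ∈ w ∧ x ∉ w} ∪ {w ∈ W | y ∈ w ∧ z ∉ w} ∪ {w ∈ W | z ∈ w ∧ y ∉ w}).Finite :=
      (((((nuH_fin hf hW x y).union (nuH_fin hf hW y x)).union (nuH_fin hf hW x z)).union
        (nuH_fin hf hW z x)).union (nuH_fin hf hW y z)).union (nuH_fin hf hW z y)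
    refine ⟨hfin.toFinset, fun w => ?_⟩
    rw [Set.Finite.mem_toFinset]
    simp only [Set.mem_union, Set.mem_setOf_eq]
    tauto
  rw [nuH_sum F (fun w hw => ((hF w).1 hw).1) (a := x) (b := z), nuH_sum F (fun w hw => ((hF w).1 hw).1) (a := x) (b := y),
    nuH_sum F (fun w hw => ((hF w).1 hw).1) (a := y) (b := z), ← Finset.sum_add_distrib]
  · refine Finset.sum_congr rfl fun w _ => ?_
    ring
  all_goals
    intro w hw h1 h2
    rw [hF]
    tauto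

private theorem nuH_image (W : Set (Set V)) (g : G) (x y : V) :
    {w ∈ g • W | g • x ∉ w ∧ g • y ∈ w} = (fun w => g • w) '' {w ∈ W | x ∉ w ∧ y ∈ w} := by
  ext w
  simp only [Set.mem_setOf_eq, Set.mem_image]
  constructor
  · rintro ⟨h1, h2, h3⟩
    obtain ⟨u, hu, rfl⟩ := h1
    refine ⟨u, ⟨hu, fun h => h2 (Set.smul_mem_smul_set h), ?_⟩, rfl⟩
    exact Set.smul_mem_smul_set_iff.1 h3
  · rintro ⟨u, ⟨h1, h2, h3⟩, rfl⟩
    exact ⟨Set.smul_mem_smul_set h1, fun h => h2 (Set.smul_mem_smul_set_iff.1 h), Set.smul_mem_smul_set h3⟩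

private theorem nuH_inj (g : G) : Function.Injective (fun w : Set V => g • w) := MulAction.injective g

theorem nu_smul (W : Set (Set V)) (g : G) (x y : V) : nu (g • W) (g • x) (g • y) = nu W x y := by
  unfold nu
  have e1 := nuH_image W g x y
  have e2 := nuH_image W g y x
  have e3 : {w ∈ g • W | g • x ∈ w ∧ g • y ∉ w} = {w ∈ g • W | g • y ∉ w ∧ g • x ∈ w} := by
    ext w
    simp only [Set.mem_setOf_eq]
    tauto
  have e4 : {w ∈ W | x ∈ w ∧ y ∉ w} = {w ∈ W | y ∉ w ∧ x ∈ w} := by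
    ext w
    simp only [Set.mem_setOf_eq]
    tauto
  rw [e1, e3, e2, e4, Set.ncard_image_of_injective _ (nuH_inj g), Set.ncard_image_of_injective _ (nuH_inj g)]

theorem nu_pos (hf : ∀ x y, {h ∈ Hs | x ∈ h ∧ y ∉ h}.Finite) {W : Set (Set V)} (hW : W ⊆ Hs) {x y : V}
    (h1 : ∀ w ∈ W, x ∈ w → y ∈ w) (h2 : ∃ w ∈ W, x ∉ w ∧ y ∈ w) : 0 < nu W x y := by
  unfold nu
  have e1 : {w ∈ W | x ∈ w ∧ y ∉ w} = ∅ := by
    ext w
    simp only [Set.mem_setOf_eq, Set.mem_empty_iff_false, iff_false]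
    rintro ⟨h3, h4, h5⟩
    exact h5 (h1 w h3 h4)
  have e2 : {w ∈ W | x ∉ w ∧ y ∈ w}.Finite :=
    (hf y x).subset fun w hw => ⟨hW hw.1, hw.2.2, hw.2.1⟩
  have e3 : 0 < {w ∈ W | x ∉ w ∧ y ∈ w}.ncard := by
    rw [Set.ncard_pos e2]
    obtain ⟨w, hw, h3⟩ := h2
    exact ⟨w, hw, h3⟩
  rw [e1, Set.ncard_empty]
  push_cast
  omega

theorem nu_pow (hf : ∀ x y, {h ∈ Hs | x ∈ h ∧ y ∉ h}.Finite) {W : Set (Set V)} (hW : W ⊆ Hs) {g : G} (hg : g • W = W)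
    (x : V) (m : ℕ) : nu W x (g ^ m • x) = m * nu W x (g • x) := by
  have hgm : ∀ m : ℕ, g ^ m • W = W := by
    intro m
    induction m with
    | zero => simp
    | succ m ih => rw [pow_succ, mul_smul, hg, ih]
  induction m with
  | zero => simp [nu_self]
  | succ m ih =>
    have h1 := nu_add hf hW x (g ^ m • x) (g ^ (m + 1) • x)
    have h2 := nu_smul W (g ^ m) x (g • x)
    rw [hgm, ← mul_smul, ← pow_succ] at h2
    rw [h1, ih, h2]
    push_cast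
    ring

/-- independence of the base point -/
theorem nu_base (hf : ∀ x y, {h ∈ Hs | x ∈ h ∧ y ∉ h}.Finite) {W : Set (Set V)} (hW : W ⊆ Hs) {g : G} (hg : g • W = W)
    (x y : V) : nu W x (g • x) = nu W y (g • y) := by
  have h1 := nu_add hf hW x y (g • x)
  have h2 := nu_add hf hW y (g • y) (g • x)
  have h3 := nu_smul W g y x
  rw [hg] at h3
  have h4 := nu_add hf hW x y x
  rw [nu_self] at h4
  rw [h1, h2, h3]
  linarith

end Pool.Agent.H1.CG
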